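import Mathlib
import Pool.Agent.Lib.MP_ffcda7_co.Limit

set_option autoImplicit false

open Finset Filter Topology

namespace Pool.Agent.Results.MP_ffcda7_co.Asymptotics

open Pool.Agent.Lib.MP_ffcda7_co (IsBasis HasBasis f g)

/-- For every `m ≥ 1` there is a constant `κ ≥ 2.268 ^ ⌊m/3⌋ / m ^ m` such that every finite
abelian group with an `s`-basis of at most `m` elements has order at most `κ (s + m) ^ m` (for
every `s`), and both `f(m,s) / s ^ m` and `g(m,s) / s ^ m` tend to `κ` as `s → ∞`. -/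
theorem result (m : ℕ) (hm : 1 ≤ m) :
    ∃ κ : ℝ, (2.268 : ℝ) ^ (m / 3) / (m : ℝ) ^ m ≤ κ ∧
      (∀ (G : Type) [AddCommGroup G] [Finite G] (s : ℕ), HasBasis G m s →
        (Nat.card G : ℝ) ≤ κ * ((s : ℝ) + m) ^ m) ∧
      Tendsto (fun s : ℕ => (f m s : ℝ) / (s : ℝ) ^ m) atTop (𝓝 κ) ∧
      Tendsto (fun s : ℕ => (g m s : ℝ) / (s : ℝ) ^ m) atTop (𝓝 κ) := by
  have hm0 : (1 : ℝ) ≤ m := by exact_mod_cast hm
  refine ⟨Pool.Agent.Lib.MP_ffcda7_co.kap m, ?_, ?_, Pool.Agent.Lib.MP_ffcda7_co.tendsto_f m hm,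
    Pool.Agent.Lib.MP_ffcda7_co.tendsto_g m hm⟩
  · rw [div_le_iff₀ (by positivity), show (2.268 : ℝ) = 567 / 250 by norm_num]
    exact Pool.Agent.Lib.MP_ffcda7_co.kap_lower m hm
  · intro G _ _ s h
    exact Pool.Agent.Lib.MP_ffcda7_co.card_le_kap m hm s
      (Pool.Agent.Lib.MP_ffcda7_co.FB_of_HasBasis h)

end Pool.Agent.Results.MP_ffcda7_co.Asymptotics
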