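import Mathlib
import Pool.Agent.Lib.MP_ffcda7_coU.AsyH
import Pool.Agent.Lib.MP_ffcda7_coU.PolyK
import Pool.Agent.Lib.MP_ffcda7_coU.AllS
import Pool.Agent.Lib.MP_ffcda7_coU.FixS

set_option autoImplicit false

open Finset Filter Topology

namespace Pool.Agent.Results.MP_ffcda7_co.Binomial

open Pool.Agent.Lib.MP_ffcda7_co (IsBasis HasBasis f g)

/-- With `B = binom(m+s,m)`:
(1) `g(m,s) ≤ f(m,s) ≤ B` for all `m`, `s`;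
(2) for every `0 < ε < 1` there is `M` with `(1-ε)^min(m,s) B ≤ g(m,s)` for all `m, s ≥ M`;
(3) there is `C` with `B ≤ C ⌊log_2 B⌋^3 g(m,s)` for all `m ≥ s ≥ 1`;
(4) for every `K` there is `C` with `B ≤ C ⌊log_2 B⌋^C g(m,s)` for all `m, s ≥ 1` with `s ≤ K m`;
(5) `B ≤ (32 ⌊s/m⌋)^(10 (⌊log_2 ⌊log_2 B⌋⌋ + 1)) g(m,s)` for all `s ≥ m ≥ 1`;
(6) for every `s ≥ 3`, `B ≤ 10000 s ⌊log_2 s⌋ g(m,s)` for all large `m`;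
(7) `⌊B / (64 L)⌋ ≤ g(m,s)` if `s ≥ 1`, `B ≤ 2^L`, `m ≥ 2 s (8 L + 1)`. -/
theorem result :
    (∀ m s : ℕ, g m s ≤ f m s ∧ f m s ≤ (m + s).choose m) ∧
    (∀ ε : ℝ, 0 < ε → ε < 1 → ∃ M : ℕ, ∀ m s : ℕ, M ≤ m → M ≤ s →
      (1 - ε) ^ min m s * ((m + s).choose m : ℝ) ≤ g m s) ∧
    (∃ C : ℕ, ∀ m s : ℕ, 1 ≤ s → s ≤ m →
      (m + s).choose m ≤ C * Nat.log 2 ((m + s).choose m) ^ 3 * g m s) ∧
    (∀ K : ℕ, ∃ C : ℕ, ∀ m s : ℕ, 1 ≤ m → 1 ≤ s → s ≤ K * m →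
      (m + s).choose m ≤ C * Nat.log 2 ((m + s).choose m) ^ C * g m s) ∧
    (∀ m s : ℕ, 1 ≤ m → m ≤ s → (m + s).choose m ≤
      (32 * (s / m)) ^ (10 * (Nat.log 2 (Nat.log 2 ((m + s).choose m)) + 1)) * g m s) ∧
    (∀ s : ℕ, 3 ≤ s → ∀ᶠ m : ℕ in atTop,
      (m + s).choose m ≤ 10000 * s * Nat.log 2 s * g m s) ∧
    ∀ m s L : ℕ, 1 ≤ s → (m + s).choose m ≤ 2 ^ L → 2 * s * (8 * L + 1) ≤ m →
      (m + s).choose m / (64 * L) ≤ g m s :=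
  ⟨fun m s => ⟨Pool.Agent.Lib.MP_ffcda7_co.g_le_f m s,
    Pool.Agent.Lib.MP_ffcda7_coU.f_le_choose m s⟩, Pool.Agent.Lib.MP_ffcda7_coU.asyH,
    Pool.Agent.Lib.MP_ffcda7_coU.polylog3, Pool.Agent.Lib.MP_ffcda7_coU.polyK,
    Pool.Agent.Lib.MP_ffcda7_coU.allS, Pool.Agent.Lib.MP_ffcda7_coU.fixS,
    Pool.Agent.Lib.MP_ffcda7_coU.bd4⟩

end Pool.Agent.Results.MP_ffcda7_co.Binomial
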