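import Pool.Agent.Lib.FF76.Small

set_option autoImplicit false

namespace Pool.Agent.Results.MP_ffcda7_co.EqualityCases

open Pool.Agent.Lib.MP_ffcda7_co (IsBasis HasBasis f g)

/-- The case `m = 2`: for `s ≥ 2` one has `g(2,s) = f(2,s)` exactly for `s = 2, 3, 4, 5, 9`. -/
theorem result (s : ℕ) (hs : 2 ≤ s) : g 2 s = f 2 s ↔ s ∈ ({2, 3, 4, 5, 9} : Finset ℕ) :=
  Pool.Agent.Lib.FF76.g_eq_f_iff s hs

end Pool.Agent.Results.MP_ffcda7_co.EqualityCases
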