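import Pool.Agent.Lib.FF76.Gap

set_option autoImplicit false

namespace Pool.Agent.Results.MP_ffcda7_co.GapUnbounded

open Pool.Agent.Lib.MP_ffcda7_co (IsBasis HasBasis f g)

/-- The case `m = 2`: for every `C` and all large `s` there is `n` with
`g(2,s) < n ≤ f(2,s) - C s` that is not the order of an abelian group with an `s`-basis of at
most two elements. So `(f(2,s) - g(2,s)) / s → ∞`. -/
theorem result (C : ℕ) : ∃ S : ℕ, ∀ s, S ≤ s → ∃ n, g 2 s < n ∧ n + C * s ≤ f 2 s ∧
    ∀ (G : Type) [AddCommGroup G] [Finite G], Nat.card G = n → ¬ HasBasis G 2 s :=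
  Pool.Agent.Lib.FF76.far_bad' C

end Pool.Agent.Results.MP_ffcda7_co.GapUnbounded
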